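import Pool.Agent.PRT.StmtsB

set_option autoImplicit false

namespace Pool.Agent.PRT.H98

open Set MeasureTheory
open scoped ContDiff

theorem dfa0 {V : Type} [NormedAddCommGroup V] [NormedSpace ℝ V] (ψ : E → V) (φ : E → E)
    (C D : ℝ) (hψ : ContDiff ℝ ∞ ψ) (hC : 0 ≤ C) (h1 : ∀ z, ‖fderiv ℝ ψ z‖ ≤ C)
    (h2 : ∀ z, ‖φ z‖ ≤ D) (z : E) : ‖ψ (z + φ z) - ψ z‖ ≤ C * D := by
  have hd : ∀ x ∈ (univ : Set E), DifferentiableAt ℝ ψ x := fun x _ =>
    (hψ.differentiable (by simp)).differentiableAt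
  have h := Convex.norm_image_sub_le_of_norm_fderiv_le (𝕜 := ℝ) (f := ψ) (C := C) (s := univ)
    (x := z) (y := z + φ z) hd (fun x _ => h1 x) convex_univ (mem_univ _) (mem_univ _)
  have e : z + φ z - z = φ z := by abel
  rw [e] at h
  exact h.trans (mul_le_mul_of_nonneg_left (h2 z) hC)

/-- **DFA** -/
theorem dfa : DfaStmt := by
  intro k
  induction k with
  | zero =>
    refine ⟨1, ?_⟩
    intro V _ _ ψ φ C D hψ hφ hC hBψ hBφ
    have hD : 0 ≤ D := hBφ.nonneg
    intro i hi z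
    have hi0 : i = 0 := by omega
    subst hi0
    have h := dfa0 ψ φ C D hψ hC (fun z => hBψ.fderiv_le le_rfl z) hBφ.norm_le z
    rw [norm_iteratedFDeriv_zero]
    refine h.trans ?_
    have : 1 ≤ (1 + D) ^ 1 := by
      rw [pow_one]
      linarith
    have h0 : 0 ≤ C * D := mul_nonneg hC hD
    calc C * D = C * D * 1 := by ring
      _ ≤ C * D * (1 + D) ^ 1 := mul_le_mul_of_nonneg_left this h0
      _ = ((1 : ℕ) : ℝ) * C * D * (1 + D) ^ 1 := by push_cast; ring
  | succ k ih =>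
    obtain ⟨c, hc⟩ := ih
    refine ⟨c + 2 ^ k * Nat.factorial k + k + 1, ?_⟩
    intro V _ _ ψ φ C D hψ hφ hC hBψ hBφ
    have hD : 0 ≤ D := hBφ.nonneg
    have h1D : 1 ≤ 1 + D := by linarith
    have h0 : 0 ≤ C * D := mul_nonneg hC hD
    have s1 : ContDiff ℝ ∞ (fderiv ℝ ψ) := hψ.fderiv_right (by simp)
    have s2 : ContDiff ℝ ∞ (fderiv ℝ φ) := hφ.fderiv_right (by simp)
    have hG : ContDiff ℝ ∞ (fun z : E => z + φ z) := contDiff_id.add hφ
    have hBψ' : Bd (k + 1) C (fderiv ℝ ψ) := bm_succ.1 hBψ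
    have hBφ' : Bd k D (fderiv ℝ φ) := (bd_succ.1 hBφ).2
    have hBG : Bm k (1 + D) (fun z : E => z + φ z) :=
      (bm_id k).add ((hBφ.mono (Nat.le_succ _) le_rfl).bm) contDiff_id hφ
    rw [bd_succ]
    constructor
    · intro z
      have h := dfa0 ψ φ C D hψ hC (fun z => hBψ.fderiv_le (by omega) z) hBφ.norm_le z
      refine h.trans ?_
      have e1 : (1 : ℝ) ≤ ((c + 2 ^ k * Nat.factorial k + k + 1 : ℕ) : ℝ) := by
        have : 1 ≤ c + 2 ^ k * Nat.factorial k + k + 1 := by omega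
        exact_mod_cast this
      have e2 : 1 ≤ (1 + D) ^ (c + 2 ^ k * Nat.factorial k + k + 1) := one_le_pow₀ h1D
      have e3 : (1 : ℝ) ≤ ((c + 2 ^ k * Nat.factorial k + k + 1 : ℕ) : ℝ) *
          (1 + D) ^ (c + 2 ^ k * Nat.factorial k + k + 1) := by
        have := mul_le_mul e1 e2 zero_le_one (by positivity)
        simpa using this
      calc C * D = C * D * 1 := by ring
        _ ≤ C * D * (((c + 2 ^ k * Nat.factorial k + k + 1 : ℕ) : ℝ) *
          (1 + D) ^ (c + 2 ^ k * Nat.factorial k + k + 1)) := mul_le_mul_of_nonneg_left e3 h0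
        _ = _ := by ring
    · have e : fderiv ℝ (fun z => ψ (z + φ z) - ψ z) =
          fun z => (fderiv ℝ ψ (z + φ z) - fderiv ℝ ψ z) +
            ContinuousLinearMap.compL ℝ E E V (fderiv ℝ ψ (z + φ z)) (fderiv ℝ φ z) := by
        funext z
        have d1 : HasFDerivAt ψ (fderiv ℝ ψ (z + φ z)) (z + φ z) :=
          ((hψ.differentiable (by simp)).differentiableAt).hasFDerivAt
        have d2 : HasFDerivAt ψ (fderiv ℝ ψ z) z :=
          ((hψ.differentiable (by simp)).differentiableAt).hasFDerivAt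
        have d3 : HasFDerivAt φ (fderiv ℝ φ z) z :=
          ((hφ.differentiable (by simp)).differentiableAt).hasFDerivAt
        have d4 : HasFDerivAt (fun z : E => z + φ z) (ContinuousLinearMap.id ℝ E + fderiv ℝ φ z) z :=
          (hasFDerivAt_id z).add d3
        have d5 : HasFDerivAt (fun z => ψ (z + φ z))
            ((fderiv ℝ ψ (z + φ z)).comp (ContinuousLinearMap.id ℝ E + fderiv ℝ φ z)) z :=
          HasFDerivAt.comp z d1 d4
        have d6 := d5.sub d2
        rw [show (fun z => ψ (z + φ z) - ψ z) = (fun z => ψ (z + φ z)) - ψ from rfl, d6.fderiv]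
        ext
        · simp [ContinuousLinearMap.compL_apply]
          abel
        · simp [ContinuousLinearMap.compL_apply]
          abel
      rw [e]
      have b1 : Bd k (c * C * D * (1 + D) ^ c) (fun z => fderiv ℝ ψ (z + φ z) - fderiv ℝ ψ z) :=
        hc (E →L[ℝ] V) (fderiv ℝ ψ) φ C D s1 hφ hC hBψ'.bm (hBφ.mono (Nat.le_succ _) le_rfl)
      have b2 : Bd k (Nat.factorial k * C * (1 + D) ^ k) (fun z => fderiv ℝ ψ (z + φ z)) :=
        (hBψ'.mono (Nat.le_succ _) le_rfl).comp hBG h1D s1 hG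
      have b3 := Bd.bil (ContinuousLinearMap.compL ℝ E E V)
        (ContinuousLinearMap.norm_compL_le ℝ E E V) b2 hBφ' (s1.comp hG) s2
      have s3 : ContDiff ℝ ∞ (fun z => fderiv ℝ ψ (z + φ z)) := s1.comp hG
      have b4 := b1.add b3 (s3.sub s1)
        (((ContinuousLinearMap.compL ℝ E E V).isBoundedBilinearMap.contDiff).comp
          (s3.prodMk s2))
      refine b4.mono le_rfl ?_
      have p1 : (1 + D) ^ c ≤ (1 + D) ^ (c + 2 ^ k * Nat.factorial k + k + 1) :=
        pow_le_pow_right₀ h1D (by omega)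
      have p2 : (1 + D) ^ k ≤ (1 + D) ^ (c + 2 ^ k * Nat.factorial k + k + 1) :=
        pow_le_pow_right₀ h1D (by omega)
      have hP : 0 ≤ (1 + D) ^ (c + 2 ^ k * Nat.factorial k + k + 1) := by positivity
      generalize hPP : (1 + D) ^ (c + 2 ^ k * Nat.factorial k + k + 1) = P at p1 p2 hP
      push_cast
      calc (c : ℝ) * C * D * (1 + D) ^ c + 2 ^ k * (Nat.factorial k * C * (1 + D) ^ k) * D
          = (c : ℝ) * (C * D) * (1 + D) ^ c +
            2 ^ k * Nat.factorial k * (C * D) * (1 + D) ^ k := by ring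
        _ ≤ (c : ℝ) * (C * D) * P + 2 ^ k * Nat.factorial k * (C * D) * P := by gcongr
        _ ≤ (c : ℝ) * (C * D) * P + 2 ^ k * Nat.factorial k * (C * D) * P +
            ((k : ℝ) + 1) * (C * D) * P := by
            have : 0 ≤ ((k : ℝ) + 1) * (C * D) * P := by positivity
            linarith
        _ = ((c : ℝ) + 2 ^ k * Nat.factorial k + k + 1) * C * D * P := by ring

end Pool.Agent.PRT.H98
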